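import Pool.Agent.Helper50.BL.Stmts
import Pool.Agent.Helper50.BL.Base

namespace Pool.Agent.Helper50.BL

open Finset

theorem cls_ex (n1 p s : ℕ) (hn : 2 ≤ n1) (hp : 1 ≤ p) : ∃ k : ℕ, s < nn n1 k ^ (16 * p) := by
  refine ⟨s, ?_⟩
  have h1 : s < 2 ^ s := Nat.lt_two_pow_self
  have h2 : s ≤ 2 ^ s := h1.le
  have h3 : s < n1 ^ 2 ^ s := by
    calc s < 2 ^ s := h1
      _ ≤ 2 ^ 2 ^ s := Nat.pow_le_pow_right (by norm_num) h2
      _ ≤ n1 ^ 2 ^ s := Nat.pow_le_pow_left hn _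
  have h4 : nn n1 s ≤ nn n1 s ^ (16 * p) := by
    apply Nat.le_self_pow
    omega
  unfold nn at *
  exact lt_of_lt_of_le h3 h4

theorem st_CLS : ST_CLS := by
  classical
  intro J s n1 p hn hp
  refine ⟨fun j => Nat.find (cls_ex n1 p (s j) hn hp), fun j => Nat.find_spec (cls_ex n1 p (s j) hn hp), ?_⟩
  intro j hj
  have h1 := Nat.find_min (cls_ex n1 p (s j) hn hp)
    (m := Nat.find (cls_ex n1 p (s j) hn hp) - 1) (by
      have : 1 ≤ Nat.find (cls_ex n1 p (s j) hn hp) := hj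
      omega)
  exact not_lt.mp h1

end Pool.Agent.Helper50.BL
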