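import Pool.Agent.Helper50.BL.Stmts
import Pool.Agent.Helper50.BL.Base

namespace Pool.Agent.Helper50.BL

open Finset

theorem d1_sq (G : Finset ℤ) : ∀ M : ℝ, (∀ l ∈ G, (2 : ℝ) ^ l ≤ M) → 0 ≤ M →
    ∑ l ∈ G, Real.sqrt ((2 : ℝ) ^ l) ≤ 4 * Real.sqrt M := by
  induction G using Finset.induction_on_max with
  | empty =>
    intro M _ hM
    simp
  | insert m s hlt ih =>
    intro M hM hM0
    have hnot : m ∉ s := fun h => lt_irrefl _ (hlt m h)
    rw [Finset.sum_insert hnot]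
    have h1 : ∀ l ∈ s, (2 : ℝ) ^ l ≤ (2 : ℝ) ^ m / 2 := by
      intro l hl
      have h2 : l ≤ m - 1 := by
        have := hlt l hl
        omega
      calc (2 : ℝ) ^ l ≤ (2 : ℝ) ^ (m - 1) := zpow_le_zpow_right₀ (by norm_num) h2
        _ = (2 : ℝ) ^ m / 2 := by
          rw [zpow_sub₀ (by norm_num : (2 : ℝ) ≠ 0), zpow_one]
    have hpos : (0 : ℝ) < (2 : ℝ) ^ m := zpow_pos (by norm_num) m
    have h3 := ih ((2 : ℝ) ^ m / 2) h1 (by positivity)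
    have h4 : Real.sqrt ((2 : ℝ) ^ m / 2) ≤ 3 / 4 * Real.sqrt ((2 : ℝ) ^ m) := by
      rw [Real.sqrt_le_left (by positivity), mul_pow, Real.sq_sqrt hpos.le]
      nlinarith
    have h5 : Real.sqrt ((2 : ℝ) ^ m) ≤ Real.sqrt M :=
      Real.sqrt_le_sqrt (hM m (Finset.mem_insert_self m s))
    nlinarith [Real.sqrt_nonneg M, Real.sqrt_nonneg ((2 : ℝ) ^ m)]

theorem st_D1 : ST_D1 := by
  intro a z G ha hz
  have hza : 0 ≤ z / a := div_nonneg hz ha.le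
  have h1 : ∀ l ∈ G, (2 : ℝ) ^ l * (if a * (2 : ℝ) ^ l ≤ z
      then Real.sqrt (z / (a * (2 : ℝ) ^ l)) else 0)
      = if (2 : ℝ) ^ l ≤ z / a then Real.sqrt (z / a) * Real.sqrt ((2 : ℝ) ^ l) else 0 := by
    intro l _
    have hpos : (0 : ℝ) < (2 : ℝ) ^ l := zpow_pos (by norm_num) l
    by_cases h : a * (2 : ℝ) ^ l ≤ z
    · have h' : (2 : ℝ) ^ l ≤ z / a := by
        rw [le_div_iff₀ ha]
        linarith [mul_comm a ((2 : ℝ) ^ l)]
      rw [if_pos h, if_pos h']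
      have h6 : z / (a * (2 : ℝ) ^ l) = (z / a) / (2 : ℝ) ^ l := by
        rw [div_div]
      rw [h6, Real.sqrt_div hza]
      have h7 : Real.sqrt ((2 : ℝ) ^ l) ≠ 0 := (Real.sqrt_pos.mpr hpos).ne'
      have h8 : (2 : ℝ) ^ l = Real.sqrt ((2 : ℝ) ^ l) * Real.sqrt ((2 : ℝ) ^ l) :=
        (Real.mul_self_sqrt hpos.le).symm
      calc (2 : ℝ) ^ l * (Real.sqrt (z / a) / Real.sqrt ((2 : ℝ) ^ l))
          = (Real.sqrt ((2 : ℝ) ^ l) * Real.sqrt ((2 : ℝ) ^ l))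
            * (Real.sqrt (z / a) / Real.sqrt ((2 : ℝ) ^ l)) := by rw [← h8]
        _ = Real.sqrt (z / a) * Real.sqrt ((2 : ℝ) ^ l) := by
          field_simp
    · have h' : ¬ (2 : ℝ) ^ l ≤ z / a := by
        intro h''
        apply h
        rw [le_div_iff₀ ha] at h''
        linarith [mul_comm a ((2 : ℝ) ^ l)]
      rw [if_neg h, if_neg h', mul_zero]
  rw [Finset.sum_congr rfl h1, ← Finset.sum_filter, ← Finset.mul_sum]
  have h9 := d1_sq (G.filter (fun l : ℤ => (2 : ℝ) ^ l ≤ z / a)) (z / a)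
    (fun l hl => (Finset.mem_filter.mp hl).2) hza
  calc Real.sqrt (z / a) * ∑ l ∈ G.filter (fun l : ℤ => (2 : ℝ) ^ l ≤ z / a),
        Real.sqrt ((2 : ℝ) ^ l)
      ≤ Real.sqrt (z / a) * (4 * Real.sqrt (z / a)) :=
        mul_le_mul_of_nonneg_left h9 (Real.sqrt_nonneg _)
    _ = 4 * (Real.sqrt (z / a) * Real.sqrt (z / a)) := by ring
    _ = 4 * z / a := by rw [Real.mul_self_sqrt hza]; ring

end Pool.Agent.Helper50.BL
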