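import Pool.Agent.Helper50.BL.Stmts
import Pool.Agent.Helper50.BL.Base

namespace Pool.Agent.Helper50.BL

open Finset

theorem st_E2S (h1 : ST_D1) : ST_E2S := by
  intro κ T z G hκ hT hz
  have h := h1 (2 / T) z G (by positivity) hz
  have h2 : ∀ l ∈ G, (2 : ℝ) ^ l * E2c κ T ((2 : ℝ) ^ l) z
      = (κ + 2) * ((2 : ℝ) ^ l * (if 2 / T * (2 : ℝ) ^ l ≤ z
        then Real.sqrt (z / (2 / T * (2 : ℝ) ^ l)) else 0)) := by
    intro l _
    have hpos : (0 : ℝ) < (2 : ℝ) ^ l := zpow_pos (by norm_num) l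
    have h3 : (8 * (2 : ℝ) ^ l / T ≤ 4 * z) ↔ (2 / T * (2 : ℝ) ^ l ≤ z) := by
      have h4 : 8 * (2 : ℝ) ^ l / T = 4 * (2 / T * (2 : ℝ) ^ l) := by ring
      rw [h4]
      constructor
      · intro h5; linarith
      · intro h5; linarith
    unfold E2c
    by_cases h5 : 2 / T * (2 : ℝ) ^ l ≤ z
    · rw [if_pos h5, if_pos (h3.mpr h5)]
      have h6 : 4 * z / (8 * (2 : ℝ) ^ l / T) = z / (2 / T * (2 : ℝ) ^ l) := by
        field_simp
        ring
      rw [h6]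
      ring
    · rw [if_neg h5, if_neg (fun h6 => h5 (h3.mp h6))]
      ring
  rw [Finset.sum_congr rfl h2, ← Finset.mul_sum]
  have h7 : (κ + 2) * (∑ l ∈ G, (2 : ℝ) ^ l * (if 2 / T * (2 : ℝ) ^ l ≤ z
        then Real.sqrt (z / (2 / T * (2 : ℝ) ^ l)) else 0)) ≤ (κ + 2) * (4 * z / (2 / T)) :=
    mul_le_mul_of_nonneg_left h (by linarith)
  have h8 : (κ + 2) * (4 * z / (2 / T)) = 2 * (κ + 2) * T * z := by
    field_simp
    ring
  linarith

end Pool.Agent.Helper50.BL
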